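import Pool.Agent.helper13.BN.Defs2
import Pool.Agent.helper23.BN.Basic
import Pool.Agent.helper58.BN.Solve
import Pool.Agent.helper70.BN.Rellich
import Pool.Agent.helper22.BN.AxSp
import Pool.Agent.helper91.BN.TAx

/-!
# C2: the operators `w ↦ T (a w)` on the axially symmetric functions
-/

set_option autoImplicit false
open MeasureTheory Filter Topology Set Metric
open scoped ContDiff Gradient RealInnerProductSpace ENNReal

noncomputable section
namespace Pool.Agent.helper13.BN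
variable {N : ℕ}

theorem kop_measurableSet_ann (ρ : ℝ) : MeasurableSet (ann N ρ) := by
  have h : ann N ρ = {x | ρ < ‖x‖} ∩ {x | ‖x‖ < 1} := rfl
  rw [h]
  exact ((isOpen_lt continuous_const continuous_norm).inter
    (isOpen_lt continuous_norm continuous_const)).measurableSet

theorem kop_ann_subset_ball (ρ : ℝ) : ann N ρ ⊆ ball (0 : E N) 1 := fun x hx => by
  rw [mem_ball_zero_iff]
  exact hx.2

theorem kop_XS_DD (hN : 3 ≤ N) {e : E N} {ρ : ℝ} {w : LV N} (hw : w ∈ XS e ρ) : w ∈ DD univ :=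
  DD_mono (subset_univ _) ((mem_XS hN).1 hw).1

theorem kop_Mq_restrict {q : ℝ} {Ω : Set (E N)} {g : E N → ℝ} (h : Mq q univ g) : Mq q Ω g :=
  MemLp.mono_measure (Measure.restrict_mono (subset_univ _) le_rfl) h

theorem kop_nq_restrict {q : ℝ} {Ω : Set (E N)} {g : E N → ℝ} (h : Mq q univ g) :
    nq q Ω g ≤ nq q univ g := by
  unfold nq
  exact ENNReal.toReal_mono h.eLpNorm_lt_top.ne
    (eLpNorm_mono_measure _ (Measure.restrict_mono (subset_univ _) le_rfl))

theorem kop_pot_Mq (hN : 3 ≤ N) {Ω : Set (E N)} {a : E N → ℝ} (ha : Mq (N / 2) Ω a) {w : LV N}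
    (hw : w ∈ DD univ) : Mq (td N) Ω (fun x => a x * fn w x) ∧
      nq (td N) Ω (fun x => a x * fn w x) ≤ nq (N / 2) Ω a * (SS N * ‖w‖) := by
  have hs := sobolev hN hw
  have h := holder_pot hN ha (kop_Mq_restrict (Ω := Ω) hs.1)
  refine ⟨h.1, h.2.trans ?_⟩
  exact mul_le_mul_of_nonneg_left ((kop_nq_restrict hs.1).trans hs.2) ENNReal.toReal_nonneg

theorem kop_pot_axial (hN : 3 ≤ N) {e : E N} {ρ : ℝ} {a : E N → ℝ}
    (hA : Axial e ((ann N ρ).indicator a)) {w : LV N} (hw : w ∈ XS e ρ) :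
    Axial e ((ann N ρ).indicator fun x => a x * fn w x) := by
  have h := axial_comp hA ((mem_XS hN).1 hw).2 (k := fun p => p.1 * p.2)
    (measurable_fst.mul measurable_snd)
  have h2 : (fun x => (fun p : ℝ × ℝ => p.1 * p.2) ((ann N ρ).indicator a x, fn w x)) =
      (ann N ρ).indicator fun x => a x * fn w x := by
    funext x
    by_cases hx : x ∈ ann N ρ
    · simp [indicator_of_mem hx]
    · simp [indicator_of_notMem hx]
  rwa [h2] at h

theorem Kop_exists (hN : 3 ≤ N) {ρ : ℝ} (hρ : 0 < ρ) (hρ1 : ρ < 1) {e : E N} (he : ‖e‖ = 1)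
    {a : E N → ℝ} (ha : Mq (N / 2) (ann N ρ) a) (hA : Axial e ((ann N ρ).indicator a)) :
    ∃ K : XS e ρ →L[ℝ] XS e ρ,
      ∀ w : XS e ρ, (K w : LV N) = T (ann N ρ) (fun x => a x * fn (w : LV N) x) := by
  have hm := kop_measurableSet_ann (N := N) ρ
  let L : XS e ρ →ₗ[ℝ] XS e ρ :=
    { toFun := fun w => ⟨T (ann N ρ) (fun x => a x * fn (w : LV N) x),
        T_axial hN hρ hρ1 he (kop_pot_Mq hN ha (kop_XS_DD hN w.2)).1 (kop_pot_axial hN hA w.2)⟩
      map_add' := by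
        intro w w'
        apply Subtype.ext
        show T (ann N ρ) (fun x => a x * fn ((w : LV N) + (w' : LV N)) x) =
          T (ann N ρ) (fun x => a x * fn (w : LV N) x) +
          T (ann N ρ) (fun x => a x * fn (w' : LV N) x)
        rw [← T_add hN hm (kop_pot_Mq hN ha (kop_XS_DD hN w.2)).1 (kop_pot_Mq hN ha (kop_XS_DD hN w'.2)).1]
        apply T_congr hm
        filter_upwards [fn_add hN (kop_XS_DD hN w.2) (kop_XS_DD hN w'.2)] with x hx _
        rw [hx]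
        ring
      map_smul' := by
        intro c w
        apply Subtype.ext
        show T (ann N ρ) (fun x => a x * fn (c • (w : LV N)) x) =
          c • T (ann N ρ) (fun x => a x * fn (w : LV N) x)
        rw [← T_smul hN hm c (kop_pot_Mq hN ha (kop_XS_DD hN w.2)).1]
        apply T_congr hm
        filter_upwards [fn_smul hN c (kop_XS_DD hN w.2)] with x hx _
        rw [hx]
        ring }
  refine ⟨L.mkContinuous (SS N ^ 2 * nq (N / 2) (ann N ρ) a) ?_, fun w => rfl⟩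
  intro w
  have h := kop_pot_Mq hN ha (kop_XS_DD hN w.2)
  have h2 := T_norm hN hm h.1
  calc ‖L w‖ = ‖T (ann N ρ) (fun x => a x * fn (w : LV N) x)‖ := rfl
    _ ≤ SS N * (nq (N / 2) (ann N ρ) a * (SS N * ‖(w : LV N)‖)) :=
        h2.trans (mul_le_mul_of_nonneg_left h.2 SS_pos.le)
    _ = SS N ^ 2 * nq (N / 2) (ann N ρ) a * ‖w‖ := by
        rw [Submodule.coe_norm]
        ring

theorem Kop_apply (hN : 3 ≤ N) {ρ : ℝ} (hρ : 0 < ρ) (hρ1 : ρ < 1) {e : E N} (he : ‖e‖ = 1)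
    {a : E N → ℝ} (ha : Mq (N / 2) (ann N ρ) a) (hA : Axial e ((ann N ρ).indicator a))
    (w : XS e ρ) : (Kop e ρ a w : LV N) = T (ann N ρ) (fun x => a x * fn (w : LV N) x) := by
  have h := Kop_exists hN hρ hρ1 he ha hA
  unfold Kop
  rw [dif_pos h]
  exact h.choose_spec w

theorem Kop_inner (hN : 3 ≤ N) {ρ : ℝ} (hρ : 0 < ρ) (hρ1 : ρ < 1) {e : E N} (he : ‖e‖ = 1)
    {a : E N → ℝ} (ha : Mq (N / 2) (ann N ρ) a) (hA : Axial e ((ann N ρ).indicator a))
    (w w' : XS e ρ) : ⟪Kop e ρ a w, w'⟫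
      = ∫ x in ann N ρ, a x * (fn (w : LV N) x * fn (w' : LV N) x) := by
  have hm := kop_measurableSet_ann (N := N) ρ
  have h := kop_pot_Mq hN ha (kop_XS_DD hN w.2)
  rw [Submodule.coe_inner, Kop_apply hN hρ hρ1 he ha hA,
    (weak_pair hN hm h.1 (T_weak hN hm h.1) ((mem_XS hN).1 w'.2).1).2]
  refine integral_congr_ae (Eventually.of_forall fun x => ?_)
  simp only
  ring

theorem Kop_symm (hN : 3 ≤ N) {ρ : ℝ} (hρ : 0 < ρ) (hρ1 : ρ < 1) {e : E N} (he : ‖e‖ = 1)
    {a : E N → ℝ} (ha : Mq (N / 2) (ann N ρ) a) (hA : Axial e ((ann N ρ).indicator a))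
    (w w' : XS e ρ) : ⟪Kop e ρ a w, w'⟫ = ⟪w, Kop e ρ a w'⟫ := by
  rw [real_inner_comm (Kop e ρ a w') w, Kop_inner hN hρ hρ1 he ha hA,
    Kop_inner hN hρ hρ1 he ha hA]
  refine integral_congr_ae (Eventually.of_forall fun x => ?_)
  simp only
  ring

theorem Kop_norm (hN : 3 ≤ N) {ρ : ℝ} (hρ : 0 < ρ) (hρ1 : ρ < 1) {e : E N} (he : ‖e‖ = 1)
    {a : E N → ℝ} (ha : Mq (N / 2) (ann N ρ) a) (hA : Axial e ((ann N ρ).indicator a)) :
    ‖Kop e ρ a‖ ≤ SS N ^ 2 * nq (N / 2) (ann N ρ) a := by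
  have hm := kop_measurableSet_ann (N := N) ρ
  have h0 : 0 ≤ nq (N / 2) (ann N ρ) a := ENNReal.toReal_nonneg
  refine ContinuousLinearMap.opNorm_le_bound _ (by have := SS_pos (N := N); positivity) ?_
  intro w
  have h := kop_pot_Mq hN ha (kop_XS_DD hN w.2)
  have h2 := T_norm hN hm h.1
  rw [Submodule.coe_norm, Kop_apply hN hρ hρ1 he ha hA]
  calc ‖T (ann N ρ) (fun x => a x * fn (w : LV N) x)‖
      ≤ SS N * (nq (N / 2) (ann N ρ) a * (SS N * ‖(w : LV N)‖)) :=
        h2.trans (mul_le_mul_of_nonneg_left h.2 SS_pos.le)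
    _ = SS N ^ 2 * nq (N / 2) (ann N ρ) a * ‖w‖ := by
        rw [Submodule.coe_norm]
        ring

theorem Kop_sub (hN : 3 ≤ N) {ρ : ℝ} (hρ : 0 < ρ) (hρ1 : ρ < 1) {e : E N} (he : ‖e‖ = 1)
    {a b : E N → ℝ} (ha : Mq (N / 2) (ann N ρ) a) (hA : Axial e ((ann N ρ).indicator a))
    (hb : Mq (N / 2) (ann N ρ) b) (hB : Axial e ((ann N ρ).indicator b)) :
    Kop e ρ (fun x => a x - b x) = Kop e ρ a - Kop e ρ b := by
  have hm := kop_measurableSet_ann (N := N) ρ
  have hab : Mq (N / 2) (ann N ρ) (fun x => a x - b x) := ha.sub hb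
  have hAB : Axial e ((ann N ρ).indicator fun x => a x - b x) := by
    have h := axial_comp hA hB (k := fun p => p.1 - p.2) (measurable_fst.sub measurable_snd)
    have h2 : (fun x => (fun p : ℝ × ℝ => p.1 - p.2)
        ((ann N ρ).indicator a x, (ann N ρ).indicator b x)) =
        (ann N ρ).indicator fun x => a x - b x := by
      funext x
      by_cases hx : x ∈ ann N ρ
      · simp [indicator_of_mem hx]
      · simp [indicator_of_notMem hx]
    rwa [h2] at h
  ext1 w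
  apply Subtype.ext
  rw [Kop_apply hN hρ hρ1 he hab hAB]
  show T (ann N ρ) (fun x => (a x - b x) * fn (w : LV N) x) =
    (Kop e ρ a w : LV N) - (Kop e ρ b w : LV N)
  rw [Kop_apply hN hρ hρ1 he ha hA, Kop_apply hN hρ hρ1 he hb hB,
    ← T_sub hN hm (kop_pot_Mq hN ha (kop_XS_DD hN w.2)).1 (kop_pot_Mq hN hb (kop_XS_DD hN w.2)).1]
  apply T_congr hm
  filter_upwards with x _
  ring

theorem kop_compact_closure_of_seq {X : Type*} [MetricSpace X] {S : Set X}
    (h : ∀ x : ℕ → X, (∀ n, x n ∈ S) → ∃ (k : ℕ → ℕ) (z : X), StrictMono k ∧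
      Tendsto (fun n => x (k n)) atTop (𝓝 z)) : IsCompact (closure S) := by
  apply IsSeqCompact.isCompact
  intro y hy
  have hc : ∀ n : ℕ, ∃ x ∈ S, dist (y n) x < 1 / ((n : ℝ) + 1) := fun n =>
    Metric.mem_closure_iff.1 (hy n) _ (by positivity)
  choose x hx hxy using hc
  obtain ⟨k, z, hk, hz⟩ := h x hx
  refine ⟨z, mem_closure_of_tendsto hz (Eventually.of_forall fun n => hx _), k, hk, ?_⟩
  refine hz.congr_dist ?_
  have h1 : Tendsto (fun n : ℕ => 1 / ((n : ℝ) + 1)) atTop (𝓝 0) :=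
    tendsto_one_div_add_atTop_nhds_zero_nat
  refine squeeze_zero (fun n => dist_nonneg) (fun n => ?_) (h1.comp hk.tendsto_atTop)
  rw [dist_comm]
  exact (hxy (k n)).le

theorem kop_nq_sub_le {q : ℝ} (hq : 1 ≤ q) {Ω : Set (E N)} {g h : E N → ℝ} (hg : Mq q Ω g)
    (hh : Mq q Ω h) : nq q Ω (fun x => g x - h x) ≤ nq q Ω g + nq q Ω h := by
  unfold nq
  rw [← ENNReal.toReal_add hg.eLpNorm_lt_top.ne hh.eLpNorm_lt_top.ne]
  refine ENNReal.toReal_mono (ENNReal.add_ne_top.2 ⟨hg.eLpNorm_lt_top.ne, hh.eLpNorm_lt_top.ne⟩)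
    (eLpNorm_sub_le hg.1 hh.1 ?_)
  rw [← ENNReal.ofReal_one]
  exact ENNReal.ofReal_le_ofReal hq

theorem kop_two_le_ts (hN : 3 ≤ N) : (2 : ℝ) ≤ ts N := by
  unfold ts
  have h : (3 : ℝ) ≤ N := by exact_mod_cast hN
  rw [le_div_iff₀ (by linarith)]
  linarith

theorem kop_one_le_td (hN : 3 ≤ N) : (1 : ℝ) ≤ td N := by
  unfold td
  have h : (3 : ℝ) ≤ N := by exact_mod_cast hN
  rw [le_div_iff₀ (by linarith)]
  linarith

theorem kop_td_le_two (N : ℕ) : td N ≤ 2 := by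
  unfold td
  have h : (0 : ℝ) ≤ N := Nat.cast_nonneg N
  rw [div_le_iff₀ (by linarith)]
  linarith

theorem kop_bdd_mul {Ω : Set (E N)} {q B : ℝ} {a f : E N → ℝ}
    (hm : AEStronglyMeasurable a (volume.restrict Ω)) (hΩ : MeasurableSet Ω)
    (hB : ∀ᵐ x, x ∈ Ω → |a x| ≤ B) (hf : Mq q Ω f) :
    Mq q Ω (fun x => a x * f x) ∧ nq q Ω (fun x => a x * f x) ≤ |B| * nq q Ω f := by
  have hB' : ∀ᵐ x ∂(volume.restrict Ω), ‖a x * f x‖ ≤ (‖B‖₊ : ℝ) * ‖f x‖ := by
    rw [ae_restrict_iff' hΩ]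
    filter_upwards [hB] with x hx hxΩ
    rw [norm_mul]
    refine mul_le_mul_of_nonneg_right ?_ (norm_nonneg _)
    rw [Real.norm_eq_abs, coe_nnnorm, Real.norm_eq_abs]
    exact (hx hxΩ).trans (le_abs_self B)
  have h1 := eLpNorm_le_nnreal_smul_eLpNorm_of_ae_le_mul hB' (ENNReal.ofReal q)
  have htop : ‖B‖₊ • eLpNorm f (ENNReal.ofReal q) (volume.restrict Ω) ≠ ⊤ := by
    rw [ENNReal.smul_def, smul_eq_mul]
    exact ENNReal.mul_ne_top ENNReal.coe_ne_top hf.eLpNorm_lt_top.ne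
  refine ⟨⟨hm.mul hf.1, lt_of_le_of_lt h1 (lt_top_iff_ne_top.2 htop)⟩, ?_⟩
  unfold nq
  refine (ENNReal.toReal_mono htop h1).trans (le_of_eq ?_)
  rw [ENNReal.smul_def, smul_eq_mul, ENNReal.toReal_mul, ENNReal.coe_toReal, coe_nnnorm,
    Real.norm_eq_abs]

theorem Kop_compact (hN : 3 ≤ N) {ρ : ℝ} (hρ : 0 < ρ) (hρ1 : ρ < 1) {e : E N} (he : ‖e‖ = 1)
    {a : E N → ℝ} {B : ℝ} (hm : AEStronglyMeasurable a (volume.restrict (ann N ρ)))
    (hB : ∀ᵐ x, x ∈ ann N ρ → |a x| ≤ B) (hA : Axial e ((ann N ρ).indicator a)) :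
    IsCompactOperator (Kop e ρ a) := by
  have hΩ := kop_measurableSet_ann (N := N) ρ
  have hN' : (3 : ℝ) ≤ N := by exact_mod_cast hN
  have hfin : IsFiniteMeasure (volume.restrict (ann N ρ)) := ⟨by
    rw [Measure.restrict_apply_univ]
    exact lt_of_le_of_lt (measure_mono (kop_ann_subset_ball ρ)) measure_ball_lt_top⟩
  have ha : Mq (N / 2) (ann N ρ) a := by
    refine MemLp.of_bound hm B ?_
    rw [ae_restrict_iff' hΩ]
    exact hB
  obtain ⟨C, hC, hCle⟩ := exists_nq_le (N := N) (R := 1) (kop_one_le_td hN) (kop_td_le_two N)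
  obtain ⟨S, hS, hSle⟩ := exists_sob_q hN (1 : ℝ) (q := 2) (by norm_num) (kop_two_le_ts hN)
  have hcomp : CompleteSpace (XS e ρ) := by
    unfold XS
    infer_instance
  have hball : ∀ w : XS e ρ, (w : LV N) ∈ DD (ball (0 : E N) 1) := fun w =>
    DD_mono (kop_ann_subset_ball ρ) ((mem_XS hN).1 w.2).1
  -- the bound by the `L²` norm
  have hbd : ∀ w : XS e ρ, ‖Kop e ρ a w‖ ≤ SS N * (C * (|B| * nq 2 univ (fn (w : LV N)))) := by
    intro w
    have h2 := (hSle _ (hball w)).1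
    have h3 := kop_bdd_mul (q := 2) hm hΩ hB (kop_Mq_restrict (Ω := ann N ρ) h2)
    have h4 := kop_pot_Mq hN ha (kop_XS_DD hN w.2)
    rw [Submodule.coe_norm, Kop_apply hN hρ hρ1 he ha hA]
    refine (T_norm hN hΩ h4.1).trans (mul_le_mul_of_nonneg_left ?_ SS_pos.le)
    refine (hCle _ (kop_ann_subset_ball ρ) _ h3.1).trans (mul_le_mul_of_nonneg_left ?_ hC.le)
    exact h3.2.trans (mul_le_mul_of_nonneg_left (kop_nq_restrict h2) (abs_nonneg B))
  set D : ℝ := SS N * (C * |B|) with hD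
  have hD0 : 0 ≤ D := mul_nonneg SS_pos.le (mul_nonneg hC.le (abs_nonneg B))
  refine (isCompactOperator_iff_isCompact_closure_image_closedBall
    ((Kop e ρ a : XS e ρ →L[ℝ] XS e ρ) : XS e ρ →ₗ[ℝ] XS e ρ) one_pos).2 ?_
  apply kop_compact_closure_of_seq
  intro y hy
  choose w hw hwy using hy
  obtain ⟨k, v, hk, hv, -, hlim⟩ := rellich hN (w := fun n => (w n : LV N)) (fun n => hball _)
    (C := 1) (fun n => by
      have := hw n
      rw [mem_closedBall_zero_iff] at this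
      exact this)
  have hvM := (hSle _ hv).1
  have hdiff : ∀ n m, ‖Kop e ρ a (w n) - Kop e ρ a (w m)‖ ≤
      D * (nq 2 univ (fun x => fn (w n : LV N) x - fn v x) +
        nq 2 univ (fun x => fn (w m : LV N) x - fn v x)) := by
    intro n m
    rw [← map_sub]
    refine (hbd _).trans ?_
    have h1 := (hSle _ (hball (w n))).1
    have h2 := (hSle _ (hball (w m))).1
    have h3 : nq 2 univ (fn ((w n - w m : XS e ρ) : LV N)) =
        nq 2 univ (fun x => (fn (w n : LV N) x - fn v x) - (fn (w m : LV N) x - fn v x)) := by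
      unfold nq
      congr 1
      refine eLpNorm_congr_ae ?_
      rw [Measure.restrict_univ]
      filter_upwards [fn_sub hN (kop_XS_DD hN (w n).2) (kop_XS_DD hN (w m).2)] with x hx
      show fn ((w n : LV N) - (w m : LV N)) x = _
      rw [hx]
      ring
    have h4 := kop_nq_sub_le (by norm_num : (1 : ℝ) ≤ 2) (h1.sub hvM) (h2.sub hvM)
    rw [h3]
    calc SS N * (C * (|B| * nq 2 univ (fun x => (fn (w n : LV N) x - fn v x) -
          (fn (w m : LV N) x - fn v x))))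
        = D * nq 2 univ (fun x => (fn (w n : LV N) x - fn v x) -
          (fn (w m : LV N) x - fn v x)) := by rw [hD]; ring
      _ ≤ _ := mul_le_mul_of_nonneg_left h4 hD0
  have hcau : CauchySeq fun n => Kop e ρ a (w (k n)) := by
    rw [Metric.cauchySeq_iff']
    intro ε hε
    have h1 : ∀ᶠ n in atTop, nq 2 univ (fun x => fn (w (k n) : LV N) x - fn v x) <
        ε / (2 * (D + 1)) := hlim.eventually (gt_mem_nhds (by positivity))
    obtain ⟨M, hM⟩ := eventually_atTop.1 h1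
    refine ⟨M, fun n hn => ?_⟩
    rw [dist_eq_norm]
    have h2 := hM n hn
    have h3 := hM M le_rfl
    have h4 : (nq 2 univ (fun x => fn (w (k n) : LV N) x - fn v x) +
        nq 2 univ (fun x => fn (w (k M) : LV N) x - fn v x)) < ε / (D + 1) := by
      have : ε / (D + 1) = ε / (2 * (D + 1)) + ε / (2 * (D + 1)) := by field_simp; ring
      rw [this]
      exact add_lt_add h2 h3
    refine lt_of_le_of_lt (hdiff _ _) ?_
    calc D * (nq 2 univ (fun x => fn (w (k n) : LV N) x - fn v x) +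
          nq 2 univ (fun x => fn (w (k M) : LV N) x - fn v x))
        ≤ D * (ε / (D + 1)) := mul_le_mul_of_nonneg_left h4.le hD0
      _ < ε := by
        rw [mul_div_assoc', div_lt_iff₀ (by linarith)]
        nlinarith
  obtain ⟨z, hz⟩ := cauchySeq_tendsto_of_complete hcau
  refine ⟨k, z, hk, ?_⟩
  have : (fun n => y (k n)) = fun n => Kop e ρ a (w (k n)) := by
    funext n
    exact (hwy (k n)).symm
  rw [this]
  exact hz

end Pool.Agent.helper13.BN
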